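import Pool.Agent.Helper47.CX.Iface

/-! # Exact real points over the field generated by one real root of an integer polynomial -/

set_option autoImplicit false

namespace Pool.Agent.Helper68.NF

open Pool.CX Pool.Agent.Helper66.AF

/-! ### polynomials in `θ` -/

/-- the value at `θ` -/
def ev (θ : ℝ) : List ℤ → ℝ
  | [] => 0
  | a :: l => a + θ * ev θ l

/-- sum -/
def addL : List ℤ → List ℤ → List ℤ
  | [], l => l
  | a :: l, [] => a :: l
  | a :: l, b :: m => (a + b) :: addL l m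

/-- integer multiple -/
def smulL (c : ℤ) (l : List ℤ) : List ℤ := l.map (fun a => c * a)

theorem ev_addL (θ : ℝ) : ∀ l m : List ℤ, ev θ (addL l m) = ev θ l + ev θ m
  | [], l => by simp [addL, ev]
  | a :: l, [] => by simp [addL, ev]
  | a :: l, b :: m => by
    simp only [addL, ev, ev_addL θ l m]
    push_cast
    ring

theorem ev_smulL (θ : ℝ) (c : ℤ) : ∀ l : List ℤ, ev θ (smulL c l) = c * ev θ l
  | [] => by simp [smulL, ev]
  | a :: l => by
    have h := ev_smulL θ c l
    simp only [smulL, List.map_cons, ev] at h ⊢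
    rw [h]
    push_cast
    ring

theorem ev_append (θ : ℝ) (a : ℤ) : ∀ l : List ℤ, ev θ (l ++ [a]) = ev θ l + a * θ ^ l.length
  | [] => by simp [ev]
  | b :: l => by
    simp only [List.cons_append, ev, ev_append θ a l, List.length_cons]
    ring

/-- multiplication by `θ`, where `θ ^ n = f` -/
def mulX (f p : List ℤ) : List ℤ :=
  if p.length = f.length then addL (0 :: p.dropLast) (smulL (p.getLastD 0) f) else 0 :: p

theorem ev_mulX {θ : ℝ} {f : List ℤ} (hf : θ ^ f.length = ev θ f) (hf0 : f ≠ []) (p : List ℤ) :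
    ev θ (mulX f p) = θ * ev θ p := by
  rw [mulX]
  split_ifs with h
  · have hp : p ≠ [] := by
      rintro rfl
      exact hf0 (List.length_eq_zero_iff.1 h.symm)
    have h1 : p = p.dropLast ++ [p.getLastD 0] := by
      rw [List.getLastD_eq_getLast?, List.getLast?_eq_some_getLast hp, Option.getD_some,
        List.dropLast_append_getLast]
    have h2 : ev θ p = ev θ p.dropLast + (p.getLastD 0 : ℤ) * θ ^ p.dropLast.length := by
      conv_lhs => rw [h1]
      rw [ev_append]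
    have h3 : p.dropLast.length + 1 = f.length := by
      rw [List.length_dropLast, ← h]
      have := List.length_pos_iff.2 hp
      omega
    rw [ev_addL, ev_smulL, ← hf, ev, h2, ← h3, pow_succ]
    push_cast
    ring
  · simp [ev]

/-- product modulo the relation -/
def mulL (f p : List ℤ) : List ℤ → List ℤ
  | [] => []
  | c :: q => addL (smulL c p) (mulX f (mulL f p q))

theorem ev_mulL {θ : ℝ} {f : List ℤ} (hf : θ ^ f.length = ev θ f) (hf0 : f ≠ [])
    (p : List ℤ) : ∀ q : List ℤ, ev θ (mulL f p q) = ev θ p * ev θ q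
  | [] => by simp [mulL, ev]
  | c :: q => by
    rw [mulL, ev_addL, ev_smulL, ev_mulX hf hf0, ev_mulL hf hf0 p q, ev]
    ring

/-- all the coefficients are zero -/
def isZ (l : List ℤ) : Bool := l.all (fun a => a == 0)

theorem ev_isZ (θ : ℝ) : ∀ l : List ℤ, isZ l = true → ev θ l = 0
  | [], _ => rfl
  | a :: l, h => by
    simp only [isZ, List.all_cons, Bool.and_eq_true, beq_iff_eq] at h
    rw [ev, h.1, ev_isZ θ l h.2]
    simp

/-- equality test -/
def eqL (l m : List ℤ) : Bool := isZ (addL l (smulL (-1) m))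

theorem ev_eqL {θ : ℝ} {l m : List ℤ} (h : eqL l m = true) : ev θ l = ev θ m := by
  have h1 := ev_isZ θ _ h
  rw [ev_addL, ev_smulL] at h1
  push_cast at h1
  linarith

/-! ### intervals -/

/-- an interval for `scale * value` and the scale, from `lo ≤ D θ ≤ hi` -/
def ivl (D lo hi : ℤ) : List ℤ → ℤ × ℤ × ℤ
  | [] => (0, 0, 1)
  | c :: l =>
    let r := ivl D lo hi l
    let s := r.2.2 * D
    let p := lo * r.1
    let q := lo * r.2.1
    let u := hi * r.1
    let v := hi * r.2.1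
    (c * s + min (min p q) (min u v), c * s + max (max p q) (max u v), s)

theorem mul_mem_ivl {x y l h a b : ℝ} (h1 : l ≤ x) (h2 : x ≤ h) (h3 : a ≤ y) (h4 : y ≤ b) :
    min (min (l * a) (l * b)) (min (h * a) (h * b)) ≤ x * y ∧
      x * y ≤ max (max (l * a) (l * b)) (max (h * a) (h * b)) := by
  have key : ∀ z : ℝ, min (z * a) (z * b) ≤ z * y ∧ z * y ≤ max (z * a) (z * b) := by
    intro z
    rcases le_total 0 z with hz | hz
    · exact ⟨(min_le_left _ _).trans (mul_le_mul_of_nonneg_left h3 hz),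
        (mul_le_mul_of_nonneg_left h4 hz).trans (le_max_right _ _)⟩
    · exact ⟨(min_le_right _ _).trans (mul_le_mul_of_nonpos_left h4 hz),
        (mul_le_mul_of_nonpos_left h3 hz).trans (le_max_left _ _)⟩
  have key2 : min (l * y) (h * y) ≤ x * y ∧ x * y ≤ max (l * y) (h * y) := by
    rcases le_total 0 y with hy | hy
    · exact ⟨(min_le_left _ _).trans (mul_le_mul_of_nonneg_right h1 hy),
        (mul_le_mul_of_nonneg_right h2 hy).trans (le_max_right _ _)⟩
    · exact ⟨(min_le_right _ _).trans (mul_le_mul_of_nonpos_right h2 hy),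
        (mul_le_mul_of_nonpos_right h1 hy).trans (le_max_left _ _)⟩
  exact ⟨(min_le_min (key l).1 (key h).1).trans key2.1,
    key2.2.trans (max_le_max (key l).2 (key h).2)⟩

theorem ivl_sound {D lo hi : ℤ} {θ : ℝ} (hD : 0 < D) (h1 : (lo : ℝ) ≤ D * θ)
    (h2 : D * θ ≤ hi) : ∀ l : List ℤ, 0 < (ivl D lo hi l).2.2 ∧
      ((ivl D lo hi l).1 : ℝ) ≤ (ivl D lo hi l).2.2 * ev θ l ∧
      ((ivl D lo hi l).2.2 : ℝ) * ev θ l ≤ (ivl D lo hi l).2.1
  | [] => by simp [ivl, ev]
  | c :: l => by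
    obtain ⟨h3, h4, h5⟩ := ivl_sound hD h1 h2 l
    have h6 := mul_mem_ivl h1 h2 h4 h5
    simp only [ivl, ev]
    refine ⟨mul_pos h3 hD, ?_, ?_⟩
    · push_cast
      have := h6.1
      nlinarith [this]
    · push_cast
      have := h6.2
      nlinarith [this]

/-! ### letters -/

/-- an affine map: common denominator and `3 x 4` matrix of coefficients (polynomials in `θ`) -/
structure Lt where
  den : ℤ
  m : List (List ℤ)

/-- the coefficient -/
def Lt.e (L : Lt) (r c : ℕ) : List ℤ := L.m.getD (4 * r + c) []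

/-- the real coefficient -/
noncomputable def Lt.co (L : Lt) (θ : ℝ) (r c : ℕ) : ℝ := ev θ (L.e r c) / L.den

/-- the linear part -/
noncomputable def Lt.lin (L : Lt) (θ : ℝ) : E3 →ₗ[ℝ] E3 where
  toFun x := fun r => L.co θ r 0 * x 0 + L.co θ r 1 * x 1 + L.co θ r 2 * x 2
  map_add' x y := by
    funext r
    simp only [Pi.add_apply]
    ring
  map_smul' c x := by
    funext r
    simp only [Pi.smul_apply, smul_eq_mul, RingHom.id_apply]
    ring

/-- the affine map -/
noncomputable def Lt.map (L : Lt) (θ : ℝ) : E3 →ᵃ[ℝ] E3 where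
  toFun x := fun r => L.co θ r 0 * x 0 + L.co θ r 1 * x 1 + L.co θ r 2 * x 2 + L.co θ r 3
  linear := L.lin θ
  map_vadd' x v := by
    funext r
    simp only [vadd_eq_add, Pi.add_apply, Lt.lin, LinearMap.coe_mk, AddHom.coe_mk]
    ring

theorem Lt.map_apply (L : Lt) (θ : ℝ) (x : E3) (r : Fin 3) :
    L.map θ x r = L.co θ r 0 * x 0 + L.co θ r 1 * x 1 + L.co θ r 2 * x 2 + L.co θ r 3 := rfl

/-- the entry test of a product, `r` the row and `c` the column -/
def cmpE (f : List ℤ) (L1 L2 L3 : Lt) (r c : ℕ) : Bool :=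
  let s := addL (mulL f (L1.e r 0) (L2.e 0 c)) (addL (mulL f (L1.e r 1) (L2.e 1 c))
    (mulL f (L1.e r 2) (L2.e 2 c)))
  let s' := if c = 3 then addL s (smulL L2.den (L1.e r 3)) else s
  eqL (smulL L3.den s') (smulL (L1.den * L2.den) (L3.e r c))

/-- the test for `L1 L2 = L3` -/
def cmp (f : List ℤ) (L1 L2 L3 : Lt) : Bool :=
  decide (L1.den ≠ 0) && decide (L2.den ≠ 0) && decide (L3.den ≠ 0) &&
    [0, 1, 2].all (fun r => [0, 1, 2, 3].all (fun c => cmpE f L1 L2 L3 r c))

theorem cmp_sound {θ : ℝ} {f : List ℤ} (hf : θ ^ f.length = ev θ f) (hf0 : f ≠ [])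
    {L1 L2 L3 : Lt} (h : cmp f L1 L2 L3 = true) (x : E3) :
    L1.map θ (L2.map θ x) = L3.map θ x := by
  simp only [cmp, Bool.and_eq_true, decide_eq_true_eq, List.all_cons, List.all_nil,
    Bool.and_true] at h
  obtain ⟨⟨⟨d1, d2⟩, d3⟩, h0, h1, h2⟩ := h
  have D1 : (L1.den : ℝ) ≠ 0 := by exact_mod_cast d1
  have D2 : (L2.den : ℝ) ≠ 0 := by exact_mod_cast d2
  have D3 : (L3.den : ℝ) ≠ 0 := by exact_mod_cast d3
  have lin : ∀ r c : ℕ, c ≠ 3 → cmpE f L1 L2 L3 r c = true →
      L1.co θ r 0 * L2.co θ 0 c + L1.co θ r 1 * L2.co θ 1 c + L1.co θ r 2 * L2.co θ 2 c =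
        L3.co θ r c := by
    intro r c hc hE
    simp only [cmpE, if_neg hc] at hE
    have h3 := ev_eqL (θ := θ) hE
    simp only [ev_smulL, ev_addL, ev_mulL hf hf0] at h3
    push_cast at h3
    simp only [Lt.co]
    field_simp
    linear_combination h3
  have tr : ∀ r : ℕ, cmpE f L1 L2 L3 r 3 = true →
      L1.co θ r 0 * L2.co θ 0 3 + L1.co θ r 1 * L2.co θ 1 3 + L1.co θ r 2 * L2.co θ 2 3 +
        L1.co θ r 3 = L3.co θ r 3 := by
    intro r hE
    simp only [cmpE, if_true] at hE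
    have h3 := ev_eqL (θ := θ) hE
    simp only [ev_smulL, ev_addL, ev_mulL hf hf0] at h3
    push_cast at h3
    simp only [Lt.co]
    field_simp
    linear_combination h3
  funext r
  have key : ∀ r : ℕ, cmpE f L1 L2 L3 r 0 = true → cmpE f L1 L2 L3 r 1 = true →
      cmpE f L1 L2 L3 r 2 = true → cmpE f L1 L2 L3 r 3 = true →
      L1.co θ r 0 * (L2.co θ 0 0 * x 0 + L2.co θ 0 1 * x 1 + L2.co θ 0 2 * x 2 + L2.co θ 0 3) +
      L1.co θ r 1 * (L2.co θ 1 0 * x 0 + L2.co θ 1 1 * x 1 + L2.co θ 1 2 * x 2 + L2.co θ 1 3) +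
      L1.co θ r 2 * (L2.co θ 2 0 * x 0 + L2.co θ 2 1 * x 1 + L2.co θ 2 2 * x 2 + L2.co θ 2 3) +
      L1.co θ r 3 = L3.co θ r 0 * x 0 + L3.co θ r 1 * x 1 + L3.co θ r 2 * x 2 + L3.co θ r 3 := by
    intro r a0 a1 a2 a3
    have b0 := lin r 0 (by norm_num) a0
    have b1 := lin r 1 (by norm_num) a1
    have b2 := lin r 2 (by norm_num) a2
    have b3 := tr r a3
    linear_combination x 0 * b0 + x 1 * b1 + x 2 * b2 + b3
  simp only [Lt.map_apply]
  fin_cases r
  · exact key 0 h0.1 h0.2.1 h0.2.2.1 h0.2.2.2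
  · exact key 1 h1.1 h1.2.1 h1.2.2.1 h1.2.2.2
  · exact key 2 h2.1 h2.2.1 h2.2.2.1 h2.2.2.2

/-- the test for the identity -/
def idT (L : Lt) : Bool :=
  decide (L.den ≠ 0) && [0, 1, 2].all (fun r => [0, 1, 2, 3].all (fun c =>
    eqL (L.e r c) (if r = c then [L.den] else [])))

theorem idT_sound {θ : ℝ} {L : Lt} (h : idT L = true) (x : E3) : L.map θ x = x := by
  simp only [idT, Bool.and_eq_true, decide_eq_true_eq, List.all_cons, List.all_nil,
    Bool.and_true] at h
  obtain ⟨d, h0, h1, h2⟩ := h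
  have D : (L.den : ℝ) ≠ 0 := by exact_mod_cast d
  have e : ∀ r c : ℕ, eqL (L.e r c) (if r = c then [L.den] else []) = true →
      L.co θ r c = if r = c then 1 else 0 := by
    intro r c hE
    have h3 := ev_eqL (θ := θ) hE
    rw [Lt.co, h3]
    split_ifs
    · simp only [ev, mul_zero, add_zero]
      exact div_self D
    · simp [ev]
  funext r
  rw [Lt.map_apply]
  fin_cases r
  · simp only [e 0 0 h0.1, e 0 1 h0.2.1, e 0 2 h0.2.2.1, e 0 3 h0.2.2.2]
    simp
  · simp only [e 1 0 h1.1, e 1 1 h1.2.1, e 1 2 h1.2.2.1, e 1 3 h1.2.2.2]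
    simp
  · simp only [e 2 0 h2.1, e 2 1 h2.2.1, e 2 2 h2.2.2.1, e 2 3 h2.2.2.2]
    simp

/-- the test for commutation with the reflection -/
def cmT (L : Lt) : Bool :=
  isZ (L.e 0 2) && isZ (L.e 1 2) && isZ (L.e 2 0) && isZ (L.e 2 1) && isZ (L.e 2 3)

theorem cmT_sound {θ : ℝ} {L : Lt} (h : cmT L = true) (x : E3) :
    L.map θ (sigmaL x) = sigmaL (L.map θ x) := by
  simp only [cmT, Bool.and_eq_true] at h
  obtain ⟨⟨⟨⟨h1, h2⟩, h3⟩, h4⟩, h5⟩ := h
  have e : ∀ r c : ℕ, isZ (L.e r c) = true → L.co θ r c = 0 := by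
    intro r c hE
    rw [Lt.co, ev_isZ θ _ hE, zero_div]
  funext r
  rw [sigmaL_apply, sigmaL_apply]
  fin_cases r
  · simp [Lt.map_apply, e 0 2 h1]
  · simp [Lt.map_apply, e 1 2 h2]
  · simp [Lt.map_apply, e 2 0 h3, e 2 1 h4, e 2 3 h5]

/-- the test for one interval, `s` the common scale of the boxes -/
def inT (D lo hi s den : ℤ) (I : ℤ × ℤ) (l : List ℤ) : Bool :=
  let r := ivl D lo hi l
  decide (I.1 * (den * r.2.2) ≤ s * r.1) && decide (s * r.2.1 ≤ I.2 * (den * r.2.2))

theorem inT_sound {D lo hi s den : ℤ} {I : ℤ × ℤ} {l : List ℤ} {θ : ℝ} (hD : 0 < D)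
    (h1 : (lo : ℝ) ≤ D * θ) (h2 : D * θ ≤ hi) (hs : 0 ≤ s) (hden : 0 < den)
    (h : inT D lo hi s den I l = true) : InI I (s * (ev θ l / den)) := by
  simp only [inT, Bool.and_eq_true, decide_eq_true_eq] at h
  obtain ⟨h3, h4⟩ := h
  obtain ⟨h5, h6, h7⟩ := ivl_sound hD h1 h2 l
  have hd : (0 : ℝ) < den := by exact_mod_cast hden
  have hr : (0 : ℝ) < (ivl D lo hi l).2.2 := by exact_mod_cast h5
  have hs' : (0 : ℝ) ≤ s := by exact_mod_cast hs
  have h3' : (I.1 : ℝ) * (den * (ivl D lo hi l).2.2) ≤ s * (ivl D lo hi l).1 := by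
    exact_mod_cast h3
  have h4' : (s : ℝ) * (ivl D lo hi l).2.1 ≤ I.2 * (den * (ivl D lo hi l).2.2) := by
    exact_mod_cast h4
  have hp : (0 : ℝ) < den * (ivl D lo hi l).2.2 := mul_pos hd hr
  have e : (s : ℝ) * (ev θ l / den) * (den * (ivl D lo hi l).2.2) =
      s * ((ivl D lo hi l).2.2 * ev θ l) := by
    field_simp
  constructor
  · refine le_of_mul_le_mul_right ?_ hp
    rw [e]
    exact h3'.trans (mul_le_mul_of_nonneg_left h6 hs')
  · refine le_of_mul_le_mul_right ?_ hp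
    rw [e]
    exact (mul_le_mul_of_nonneg_left h7 hs').trans h4'

/-- the test for a row -/
def rowT (D lo hi s : ℤ) (L : Lt) (r : ℕ) (R : Row) : Bool :=
  inT D lo hi s L.den R.a (L.e r 0) && inT D lo hi s L.den R.b (L.e r 1) &&
    inT D lo hi s L.den R.c (L.e r 2) && inT D lo hi s L.den R.t (L.e r 3)

/-- the test for a box -/
def boxT (D lo hi s : ℤ) (L : Lt) (B : ABox) : Bool :=
  decide (0 < L.den) && rowT D lo hi s L 0 B.r0 && rowT D lo hi s L 1 B.r1 &&
    rowT D lo hi s L 2 B.r2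

theorem rowT_sound {D lo hi s : ℤ} {θ : ℝ} (hD : 0 < D)
    (h1 : (lo : ℝ) ≤ D * θ) (h2 : D * θ ≤ hi) (hs : 0 ≤ s) {L : Lt} (hden : 0 < L.den)
    (r : Fin 3) {R : Row} (h : rowT D lo hi s L r R = true) :
    R.Mem s (fun x => L.map θ x r) := by
  simp only [rowT, Bool.and_eq_true] at h
  obtain ⟨⟨⟨h3, h4⟩, h5⟩, h6⟩ := h
  exact ⟨L.co θ r 0, L.co θ r 1, L.co θ r 2, L.co θ r 3,
    inT_sound hD h1 h2 hs hden h3, inT_sound hD h1 h2 hs hden h4,
    inT_sound hD h1 h2 hs hden h5, inT_sound hD h1 h2 hs hden h6, fun x => rfl⟩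

/-! ### the real root -/

/-- the sign of `θ ^ n - f(θ)` at the rational `a / D` -/
def sgnAt (D : ℤ) (f : List ℤ) (a : ℤ) : ℤ :=
  a ^ f.length - (f.foldr (fun c (r : ℤ × ℤ) => (c * r.2 + a * r.1, r.2 * D)) (0, D)).1

theorem fold_sound {D : ℤ} (hD : D ≠ 0) (a : ℤ) : ∀ f : List ℤ,
    ((f.foldr (fun c (r : ℤ × ℤ) => (c * r.2 + a * r.1, r.2 * D)) (0, D)).2 : ℝ) =
      (D : ℝ) ^ (f.length + 1) ∧
    ((f.foldr (fun c (r : ℤ × ℤ) => (c * r.2 + a * r.1, r.2 * D)) (0, D)).1 : ℝ) =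
      (D : ℝ) ^ f.length * ev ((a : ℝ) / D) f
  | [] => by simp [ev]
  | c :: f => by
    obtain ⟨h1, h2⟩ := fold_sound hD a f
    have hD' : (D : ℝ) ≠ 0 := by exact_mod_cast hD
    constructor
    · rw [List.foldr_cons]
      push_cast
      rw [h1, List.length_cons]
      ring
    · rw [List.foldr_cons]
      push_cast
      rw [h1, h2, List.length_cons, ev]
      field_simp
      ring

theorem sgnAt_sound {D : ℤ} (hD : D ≠ 0) (f : List ℤ) (a : ℤ) :
    ((sgnAt D f a : ℤ) : ℝ) =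
      (D : ℝ) ^ f.length * (((a : ℝ) / D) ^ f.length - ev ((a : ℝ) / D) f) := by
  have hD' : (D : ℝ) ≠ 0 := by exact_mod_cast hD
  rw [sgnAt, Int.cast_sub, (fold_sound hD a f).2, Int.cast_pow, div_pow, mul_sub]
  congr 1
  field_simp

theorem ev_continuous : ∀ l : List ℤ, Continuous fun θ : ℝ => ev θ l
  | [] => continuous_const
  | _ :: l => continuous_const.add (continuous_id.mul (ev_continuous l))

/-- the test for the existence of a root between `lo / D` and `hi / D` -/
def rootT (D lo hi : ℤ) (f : List ℤ) : Bool :=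
  decide (0 < D) && decide (lo ≤ hi) && (match f with | [] => false | _ :: _ => true) &&
    ((decide (sgnAt D f lo ≤ 0) && decide (0 ≤ sgnAt D f hi)) ||
      (decide (0 ≤ sgnAt D f lo) && decide (sgnAt D f hi ≤ 0)))

theorem rootT_sound {D lo hi : ℤ} {f : List ℤ} (h : rootT D lo hi f = true) :
    ∃ θ : ℝ, 0 < D ∧ f ≠ [] ∧ (lo : ℝ) ≤ D * θ ∧ D * θ ≤ hi ∧ θ ^ f.length = ev θ f := by
  simp only [rootT, Bool.and_eq_true, Bool.or_eq_true, decide_eq_true_eq] at h
  obtain ⟨⟨⟨hD, hle⟩, hf⟩, hs⟩ := h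
  have hf0 : f ≠ [] := by
    rintro rfl
    exact absurd hf (by simp)
  have hD' : (0 : ℝ) < D := by exact_mod_cast hD
  have hDn : (0 : ℝ) < (D : ℝ) ^ f.length := by positivity
  set g : ℝ → ℝ := fun θ => θ ^ f.length - ev θ f with hg
  have hgc : Continuous g := (continuous_id.pow _).sub (ev_continuous f)
  have hle' : (lo : ℝ) / D ≤ hi / D := by
    apply div_le_div_of_nonneg_right _ hD'.le
    exact_mod_cast hle
  have key : ∃ θ ∈ Set.Icc ((lo : ℝ) / D) (hi / D), g θ = 0 := by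
    have e1 := sgnAt_sound hD.ne' f lo
    have e2 := sgnAt_sound hD.ne' f hi
    rcases hs with ⟨h1, h2⟩ | ⟨h1, h2⟩
    · have g1 : g (lo / D) ≤ 0 := by
        by_contra hcon
        push Not at hcon
        have := mul_pos hDn hcon
        rw [← e1] at this
        have h1' : ((sgnAt D f lo : ℤ) : ℝ) ≤ 0 := by exact_mod_cast h1
        linarith
      have g2 : 0 ≤ g (hi / D) := by
        by_contra hcon
        push Not at hcon
        have := mul_neg_of_pos_of_neg hDn hcon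
        rw [← e2] at this
        have h2' : (0 : ℝ) ≤ ((sgnAt D f hi : ℤ) : ℝ) := by exact_mod_cast h2
        linarith
      have := intermediate_value_Icc hle' hgc.continuousOn
      obtain ⟨θ, hθ, h0⟩ := this ⟨g1, g2⟩
      exact ⟨θ, hθ, h0⟩
    · have g1 : 0 ≤ g (lo / D) := by
        by_contra hcon
        push Not at hcon
        have := mul_neg_of_pos_of_neg hDn hcon
        rw [← e1] at this
        have h1' : (0 : ℝ) ≤ ((sgnAt D f lo : ℤ) : ℝ) := by exact_mod_cast h1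
        linarith
      have g2 : g (hi / D) ≤ 0 := by
        by_contra hcon
        push Not at hcon
        have := mul_pos hDn hcon
        rw [← e2] at this
        have h2' : ((sgnAt D f hi : ℤ) : ℝ) ≤ 0 := by exact_mod_cast h2
        linarith
      have := intermediate_value_Icc' hle' hgc.continuousOn
      obtain ⟨θ, hθ, h0⟩ := this ⟨g2, g1⟩
      exact ⟨θ, hθ, h0⟩
  obtain ⟨θ, ⟨h1, h2⟩, h0⟩ := key
  refine ⟨θ, hD, hf0, ?_, ?_, ?_⟩
  · rw [div_le_iff₀ hD'] at h1
    linarith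
  · rw [le_div_iff₀ hD'] at h2
    linarith
  · have : θ ^ f.length - ev θ f = 0 := h0
    linarith

/-! ### the whole data -/

/-- the letter `i` -/
def getL (Ls : List Lt) (i : ℕ) : Lt := Ls.getD i ⟨1, []⟩

/-- the test for the whole data; `inv` is the table of inverses -/
def dataT (f : List ℤ) (Ls : List Lt) (inv : List ℕ) : Bool :=
  idT (getL Ls 0) && (List.range Ls.length).all (fun i =>
    cmp f (getL Ls i) (getL Ls (inv.getD i 0)) (getL Ls 0) &&
      cmp f (getL Ls (inv.getD i 0)) (getL Ls i) (getL Ls 0))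

/-- the test for the relations -/
def relT (f : List ℤ) (Ls : List Lt) (rels : List (ℕ × ℕ × ℕ)) : Bool :=
  rels.all (fun r => decide (r.1 < Ls.length) && decide (r.2.1 < Ls.length) &&
    decide (r.2.2 < Ls.length) && cmp f (getL Ls r.1) (getL Ls r.2.1) (getL Ls r.2.2))

/-- the test for the boundary letters -/
def bdT (Ls : List Lt) (bds : List ℕ) : Bool :=
  bds.all (fun i => decide (i < Ls.length) && cmT (getL Ls i))

/-- the test for the boxes -/
def boxesT (D lo hi s : ℤ) (Ls : List Lt) (box : ℕ → ABox) : Bool :=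
  decide (0 ≤ s) && (List.range Ls.length).all (fun i => boxT D lo hi s (getL Ls i) (box i))

open Classical in
/-- the affine equivalence -/
noncomputable def toEquiv (θ : ℝ) (L : Lt) : Aff3 :=
  if h : Function.Bijective (L.map θ) then AffineEquiv.ofBijective h else 1

theorem toEquiv_apply {θ : ℝ} {L : Lt} (h : Function.Bijective (L.map θ)) (x : E3) :
    toEquiv θ L x = L.map θ x := by
  rw [toEquiv, dif_pos h]
  rfl

/-- THE REAL POINT -/
theorem realPoint {D lo hi s : ℤ} {f : List ℤ} {Ls : List Lt} {inv : List ℕ}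
    {rels : List (ℕ × ℕ × ℕ)} {bds : List ℕ} {box : ℕ → ABox} (h0 : 0 < Ls.length)
    (hroot : rootT D lo hi f = true) (hdata : dataT f Ls inv = true)
    (hrel : relT f Ls rels = true) (hbd : bdT Ls bds = true)
    (hbox : boxesT D lo hi s Ls box = true) :
    Nonempty (RealPoint Ls.length rels bds box s) := by
  obtain ⟨θ, hD, hf0, h1, h2, hf⟩ := rootT_sound hroot
  simp only [dataT, Bool.and_eq_true, List.all_eq_true, List.mem_range] at hdata
  obtain ⟨hid, hinv⟩ := hdata
  have bij : ∀ i < Ls.length, Function.Bijective ((getL Ls i).map θ) := by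
    intro i hi
    obtain ⟨a1, a2⟩ := hinv i hi
    refine Function.bijective_iff_has_inverse.2 ⟨(getL Ls (inv.getD i 0)).map θ, ?_, ?_⟩
    · intro x
      rw [cmp_sound hf hf0 a2, idT_sound hid]
    · intro x
      rw [cmp_sound hf hf0 a1, idT_sound hid]
  refine ⟨⟨fun i => toEquiv θ (getL Ls i), ?_, ?_, ?_, ?_⟩⟩
  · ext x r
    rw [toEquiv_apply (bij 0 h0), idT_sound hid]
    rfl
  · intro r hr
    simp only [relT, List.all_eq_true, Bool.and_eq_true, decide_eq_true_eq] at hrel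
    obtain ⟨⟨⟨b1, b2⟩, b3⟩, b4⟩ := hrel r hr
    ext x c
    have e : (toEquiv θ (getL Ls r.1) * toEquiv θ (getL Ls r.2.1)) x =
        toEquiv θ (getL Ls r.1) (toEquiv θ (getL Ls r.2.1) x) := rfl
    rw [e, toEquiv_apply (bij _ b1), toEquiv_apply (bij _ b2), toEquiv_apply (bij _ b3),
      cmp_sound hf hf0 b4]
  · intro i hi x
    simp only [bdT, List.all_eq_true, Bool.and_eq_true, decide_eq_true_eq] at hbd
    obtain ⟨b1, b2⟩ := hbd i hi
    rw [toEquiv_apply (bij _ b1), toEquiv_apply (bij _ b1), cmT_sound b2]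
  · intro i hi
    simp only [boxesT, List.all_eq_true, Bool.and_eq_true, decide_eq_true_eq,
      List.mem_range] at hbox
    obtain ⟨hs, hb⟩ := hbox
    have hb' := hb i hi
    simp only [boxT, Bool.and_eq_true, decide_eq_true_eq] at hb'
    obtain ⟨⟨⟨c1, c2⟩, c3⟩, c4⟩ := hb'
    have e : ∀ r : Fin 3, (fun x => (toEquiv θ (getL Ls i)) x r) =
        fun x => (getL Ls i).map θ x r := by
      intro r
      funext x
      rw [toEquiv_apply (bij i hi)]
    refine ⟨?_, ?_, ?_⟩
    · rw [e 0]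
      exact rowT_sound hD h1 h2 hs c1 0 c2
    · rw [e 1]
      exact rowT_sound hD h1 h2 hs c1 1 c3
    · rw [e 2]
      exact rowT_sound hD h1 h2 hs c1 2 c4

end Pool.Agent.Helper68.NF
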