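import Pool.Agent.Helper47.CX.Iface

/-! # Exact real points over towers of fields generated by real roots -/

set_option autoImplicit false

namespace Pool.Agent.Helper68.TW

open Pool.CX Pool.Agent.Helper66.AF

/-- computable operations on codes of real numbers -/
structure Ops (α : Type) where
  /-- integer constants -/
  cst : ℤ → α
  /-- sum -/
  add : α → α → α
  /-- integer multiple -/
  smul : ℤ → α → α
  /-- product -/
  mul : α → α → α
  /-- zero test -/
  zt : α → Bool
  /-- `(a, b, s)`: the value multiplied by `s` lies between `a` and `b` -/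
  iv : α → ℤ × ℤ × ℤ

/-- the operations are correct for the evaluation `val` -/
structure Ok {α : Type} (o : Ops α) (val : α → ℝ) : Prop where
  cst : ∀ c, val (o.cst c) = c
  add : ∀ x y, val (o.add x y) = val x + val y
  smul : ∀ c x, val (o.smul c x) = c * val x
  mul : ∀ x y, val (o.mul x y) = val x * val y
  zt : ∀ x, o.zt x = true → val x = 0
  iv : ∀ x, 0 < (o.iv x).2.2 ∧ ((o.iv x).1 : ℝ) ≤ (o.iv x).2.2 * val x ∧
    ((o.iv x).2.2 : ℝ) * val x ≤ (o.iv x).2.1

/-- the integers -/
def base : Ops ℤ where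
  cst c := c
  add x y := x + y
  smul c x := c * x
  mul x y := x * y
  zt x := x == 0
  iv x := (x, x, 1)

theorem base_ok : Ok base (fun x : ℤ => (x : ℝ)) where
  cst _ := rfl
  add x y := Int.cast_add x y
  smul c x := Int.cast_mul c x
  mul x y := Int.cast_mul x y
  zt x h := by
    simp only [base, beq_iff_eq] at h
    rw [h, Int.cast_zero]
  iv x := by simp [base]

/-! ### polynomials -/

section Poly

variable {α : Type} (o : Ops α)

/-- sum -/
def addA : List α → List α → List α
  | [], l => l
  | a :: l, [] => a :: l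
  | a :: l, b :: m => o.add a b :: addA l m

/-- integer multiple -/
def smulA (c : ℤ) (l : List α) : List α := l.map (fun a => o.smul c a)

/-- multiple by a coefficient -/
def scalA (x : α) (l : List α) : List α := l.map (fun a => o.mul x a)

/-- product -/
def mulA (p : List α) : List α → List α
  | [] => []
  | c :: q => addA o (scalA o c p) (o.cst 0 :: mulA p q)

/-- reduction of a polynomial given by its coefficients from the highest to the lowest, by the
relation `c θ ^ n = f` (`rf` is the reversed list of coefficients of `f`) -/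
def redA (c : ℤ) (rf : List α) : ℕ → List α → List α
  | 0, l => l
  | _ + 1, [] => []
  | k + 1, t :: l => if l.length < rf.length then t :: l else
      redA c rf k (addA o (smulA o c l) (scalA o t rf))

/-- an interval for `scale * value` and the scale, from `lo ≤ D θ ≤ hi` -/
def ivA (D lo hi : ℤ) : List α → ℤ × ℤ × ℤ
  | [] => (0, 0, 1)
  | c :: l =>
    let r := ivA D lo hi l
    let h := o.iv c
    let s := r.2.2 * D
    let p := lo * r.1
    let q := lo * r.2.1
    let u := hi * r.1
    let v := hi * r.2.1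
    (h.1 * s + h.2.2 * min (min p q) (min u v), h.2.1 * s + h.2.2 * max (max p q) (max u v),
      h.2.2 * s)

/-- the operations on polynomials in `θ`, where `c θ ^ n = f(θ)` and `lo ≤ D θ ≤ hi` -/
def adj (D lo hi c : ℤ) (rf : List α) : Ops (List α) where
  cst x := [o.cst x]
  add := addA o
  smul := smulA o
  mul := mulA o
  zt l := (redA o c rf l.length l.reverse).all o.zt
  iv := ivA o D lo hi

variable {o}

/-- evaluation -/
noncomputable def evA (val : α → ℝ) (θ : ℝ) : List α → ℝ
  | [] => 0
  | a :: l => val a + θ * evA val θ l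

variable {val : α → ℝ} (h : Ok o val) (θ : ℝ)

include h

theorem evA_addA : ∀ l m : List α, evA val θ (addA o l m) = evA val θ l + evA val θ m
  | [], l => by simp [addA, evA]
  | a :: l, [] => by simp [addA, evA]
  | a :: l, b :: m => by
    simp only [addA, evA, evA_addA l m, h.add]
    ring

theorem evA_smulA (c : ℤ) : ∀ l : List α, evA val θ (smulA o c l) = c * evA val θ l
  | [] => by simp [smulA, evA]
  | a :: l => by
    have h1 := evA_smulA c l
    simp only [smulA, List.map_cons, evA] at h1 ⊢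
    rw [h1, h.smul]
    ring

theorem evA_scalA (x : α) : ∀ l : List α, evA val θ (scalA o x l) = val x * evA val θ l
  | [] => by simp [scalA, evA]
  | a :: l => by
    have h1 := evA_scalA x l
    simp only [scalA, List.map_cons, evA] at h1 ⊢
    rw [h1, h.mul]
    ring

theorem evA_mulA (p : List α) : ∀ q : List α,
    evA val θ (mulA o p q) = evA val θ p * evA val θ q
  | [] => by simp [mulA, evA]
  | c :: q => by
    rw [mulA, evA_addA h, evA_scalA h, evA, evA_mulA p q, evA, h.cst]
    push_cast
    ring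

theorem evA_all : ∀ l : List α, l.all o.zt = true → evA val θ l = 0
  | [], _ => rfl
  | a :: l, h1 => by
    simp only [List.all_cons, Bool.and_eq_true] at h1
    rw [evA, h.zt a h1.1, evA_all l h1.2]
    simp

omit h in
theorem evA_append (a : α) : ∀ l : List α,
    evA val θ (l ++ [a]) = evA val θ l + val a * θ ^ l.length
  | [] => by simp [evA]
  | b :: l => by
    simp only [List.cons_append, evA, evA_append a l, List.length_cons]
    ring

omit h in
theorem length_addA : ∀ a b : List α, b.length ≤ a.length → (addA o a b).length = a.length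
  | [], [], _ => rfl
  | [], _ :: _, h => by simp at h
  | a :: l, [], _ => rfl
  | a :: l, b :: m, h => by
    simp only [List.length_cons, add_le_add_iff_right] at h
    simp only [addA, List.length_cons, length_addA l m h]

omit h in
theorem length_smulA (c : ℤ) (l : List α) : (smulA o c l).length = l.length := by
  rw [smulA, List.length_map]

omit h in
theorem length_scalA (c : α) (l : List α) : (scalA o c l).length = l.length := by
  rw [scalA, List.length_map]

theorem evR_addA : ∀ a b : List α, b.length ≤ a.length → evA val θ (addA o a b).reverse =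
    evA val θ a.reverse + θ ^ (a.length - b.length) * evA val θ b.reverse
  | [], [], _ => by simp [addA, evA]
  | [], _ :: _, h => by simp at h
  | a :: l, [], _ => by simp [addA, evA]
  | a :: l, b :: m, hl => by
    simp only [List.length_cons, add_le_add_iff_right] at hl
    have e : l.length = l.length - m.length + m.length := by omega
    simp only [addA, List.reverse_cons, evA_append, List.length_reverse, length_addA l m hl,
      evR_addA l m hl, List.length_cons, Nat.add_sub_add_right, h.add]
    have e2 : θ ^ l.length = θ ^ (l.length - m.length) * θ ^ m.length := by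
      rw [← pow_add, ← e]
    rw [e2]
    ring

theorem evR_smulA (c : ℤ) (l : List α) :
    evA val θ (smulA o c l).reverse = c * evA val θ l.reverse := by
  have : (smulA o c l).reverse = smulA o c l.reverse := by
    rw [smulA, smulA, List.map_reverse]
  rw [this, evA_smulA h]

theorem evR_scalA (c : α) (l : List α) :
    evA val θ (scalA o c l).reverse = val c * evA val θ l.reverse := by
  have : (scalA o c l).reverse = scalA o c l.reverse := by
    rw [scalA, scalA, List.map_reverse]
  rw [this, evA_scalA h]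

variable {θ}

theorem redA_sound {c : ℤ} {rf : List α} (hc : c ≠ 0)
    (hf : c * θ ^ rf.length = evA val θ rf.reverse) : ∀ (k : ℕ) (l : List α),
    evA val θ (redA o c rf k l).reverse = 0 → evA val θ l.reverse = 0
  | 0, l, h1 => h1
  | _ + 1, [], _ => rfl
  | k + 1, t :: l, h0 => by
    rw [redA] at h0
    split_ifs at h0 with hl
    · exact h0
    · push Not at hl
      have h1 := redA_sound hc hf k _ h0
      rw [evR_addA h θ _ _ (by rw [length_smulA, length_scalA]; exact hl), evR_smulA h,
        evR_scalA h, length_smulA, length_scalA, ← hf] at h1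
      have hc' : (c : ℝ) ≠ 0 := by exact_mod_cast hc
      have e2 : θ ^ l.length = θ ^ (l.length - rf.length) * θ ^ rf.length := by
        rw [← pow_add, Nat.sub_add_cancel hl]
      have h2 : (c : ℝ) * evA val θ (t :: l).reverse = 0 := by
        rw [List.reverse_cons, evA_append, List.length_reverse, e2]
        linear_combination h1
      exact (mul_eq_zero.1 h2).resolve_left hc'

omit h in
theorem mul_mem_ivl {x y l h a b : ℝ} (h1 : l ≤ x) (h2 : x ≤ h) (h3 : a ≤ y) (h4 : y ≤ b) :
    min (min (l * a) (l * b)) (min (h * a) (h * b)) ≤ x * y ∧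
      x * y ≤ max (max (l * a) (l * b)) (max (h * a) (h * b)) := by
  have key : ∀ z : ℝ, min (z * a) (z * b) ≤ z * y ∧ z * y ≤ max (z * a) (z * b) := by
    intro z
    rcases le_total 0 z with hz | hz
    · exact ⟨(min_le_left _ _).trans (mul_le_mul_of_nonneg_left h3 hz),
        (mul_le_mul_of_nonneg_left h4 hz).trans (le_max_right _ _)⟩
    · exact ⟨(min_le_right _ _).trans (mul_le_mul_of_nonpos_left h4 hz),
        (mul_le_mul_of_nonpos_left h3 hz).trans (le_max_left _ _)⟩
  have key2 : min (l * y) (h * y) ≤ x * y ∧ x * y ≤ max (l * y) (h * y) := by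
    rcases le_total 0 y with hy | hy
    · exact ⟨(min_le_left _ _).trans (mul_le_mul_of_nonneg_right h1 hy),
        (mul_le_mul_of_nonneg_right h2 hy).trans (le_max_right _ _)⟩
    · exact ⟨(min_le_right _ _).trans (mul_le_mul_of_nonpos_right h2 hy),
        (mul_le_mul_of_nonpos_right h1 hy).trans (le_max_left _ _)⟩
  exact ⟨(min_le_min (key l).1 (key h).1).trans key2.1,
    key2.2.trans (max_le_max (key l).2 (key h).2)⟩

theorem ivA_sound {D lo hi : ℤ} (hD : 0 < D) (h1 : (lo : ℝ) ≤ D * θ)
    (h2 : D * θ ≤ hi) : ∀ l : List α, 0 < (ivA o D lo hi l).2.2 ∧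
      ((ivA o D lo hi l).1 : ℝ) ≤ (ivA o D lo hi l).2.2 * evA val θ l ∧
      ((ivA o D lo hi l).2.2 : ℝ) * evA val θ l ≤ (ivA o D lo hi l).2.1
  | [] => by simp [ivA, evA]
  | c :: l => by
    obtain ⟨h3, h4, h5⟩ := ivA_sound hD h1 h2 l
    obtain ⟨g3, g4, g5⟩ := h.iv c
    have h6 := mul_mem_ivl h1 h2 h4 h5
    have g3' : (0 : ℝ) < (o.iv c).2.2 := by exact_mod_cast g3
    have h3' : (0 : ℝ) < (ivA o D lo hi l).2.2 := by exact_mod_cast h3
    have hD' : (0 : ℝ) < D := by exact_mod_cast hD
    have hsD : (0 : ℝ) < (ivA o D lo hi l).2.2 * D := mul_pos h3' hD'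
    simp only [ivA, evA]
    refine ⟨mul_pos g3 (mul_pos h3 hD), ?_, ?_⟩
    · push_cast
      have k1 := mul_le_mul_of_nonneg_left h6.1 g3'.le
      have k2 := mul_le_mul_of_nonneg_right g4 hsD.le
      linarith
    · push_cast
      have k1 := mul_le_mul_of_nonneg_left h6.2 g3'.le
      have k2 := mul_le_mul_of_nonneg_right g5 hsD.le
      linarith

theorem adj_ok {D lo hi c : ℤ} {rf : List α} (hD : 0 < D) (h1 : (lo : ℝ) ≤ D * θ)
    (h2 : D * θ ≤ hi) (hc : c ≠ 0) (hf : c * θ ^ rf.length = evA val θ rf.reverse) :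
    Ok (adj o D lo hi c rf) (evA val θ) where
  cst x := by
    change evA val θ [o.cst x] = x
    simp [evA, h.cst]
  add x y := evA_addA h θ x y
  smul x y := evA_smulA h θ x y
  mul x y := evA_mulA h θ x y
  zt l hl := by
    have h3 : ((redA o c rf l.length l.reverse).reverse).all o.zt = true := by
      rw [List.all_reverse]
      exact hl
    have h4 := redA_sound h hc hf _ _ (evA_all h θ _ h3)
    rw [List.reverse_reverse] at h4
    exact h4
  iv l := ivA_sound h hD h1 h2 l

end Poly

/-! ### the existence of roots -/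

section Root

variable {α : Type} (o : Ops α)

/-- powers of the denominator and numerator of the value at `a / D` -/
def foldA (D a : ℤ) (f : List α) : α × ℤ :=
  f.foldr (fun c (r : α × ℤ) => (o.add (o.smul r.2 c) (o.smul a r.1), r.2 * D)) (o.cst 0, D)

/-- `D ^ n (c θ ^ n - f(θ))` at the rational `θ = a / D` -/
def gAt (D c : ℤ) (rf : List α) (a : ℤ) : α :=
  o.add (o.cst (c * a ^ rf.length)) (o.smul (-1) (foldA o D a rf.reverse).1)

/-- test for `≤ 0` -/
def npT (x : α) : Bool := o.zt x || decide ((o.iv x).2.1 ≤ 0)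

/-- test for `≥ 0` -/
def nnT (x : α) : Bool := o.zt x || decide (0 ≤ (o.iv x).1)

/-- the test for the existence of a root of `c θ ^ n = f(θ)` between `lo / D` and `hi / D` -/
def rootT (D lo hi c : ℤ) (rf : List α) : Bool :=
  decide (0 < D) && decide (lo ≤ hi) && decide (c ≠ 0) &&
    ((npT o (gAt o D c rf lo) && nnT o (gAt o D c rf hi)) ||
      (nnT o (gAt o D c rf lo) && npT o (gAt o D c rf hi)))

variable {o} {val : α → ℝ} (h : Ok o val)

include h

theorem npT_sound {x : α} (hx : npT o x = true) : val x ≤ 0 := by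
  rw [npT, Bool.or_eq_true, decide_eq_true_eq] at hx
  rcases hx with hx | hx
  · exact (h.zt x hx).le
  · obtain ⟨h1, -, h3⟩ := h.iv x
    have h1' : (0 : ℝ) < (o.iv x).2.2 := by exact_mod_cast h1
    have hx' : ((o.iv x).2.1 : ℝ) ≤ 0 := by exact_mod_cast hx
    by_contra hcon
    push Not at hcon
    have := mul_pos h1' hcon
    linarith

theorem nnT_sound {x : α} (hx : nnT o x = true) : 0 ≤ val x := by
  rw [nnT, Bool.or_eq_true, decide_eq_true_eq] at hx
  rcases hx with hx | hx
  · exact (h.zt x hx).ge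
  · obtain ⟨h1, h2, -⟩ := h.iv x
    have h1' : (0 : ℝ) < (o.iv x).2.2 := by exact_mod_cast h1
    have hx' : (0 : ℝ) ≤ ((o.iv x).1 : ℝ) := by exact_mod_cast hx
    by_contra hcon
    push Not at hcon
    have := mul_neg_of_pos_of_neg h1' hcon
    linarith

theorem foldA_sound {D : ℤ} (hD : D ≠ 0) (a : ℤ) : ∀ f : List α,
    ((foldA o D a f).2 : ℝ) = (D : ℝ) ^ (f.length + 1) ∧
      val (foldA o D a f).1 = (D : ℝ) ^ f.length * evA val ((a : ℝ) / D) f
  | [] => by simp [foldA, evA, h.cst]
  | c :: f => by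
    obtain ⟨h1, h2⟩ := foldA_sound hD a f
    have hD' : (D : ℝ) ≠ 0 := by exact_mod_cast hD
    have e : foldA o D a (c :: f) = (o.add (o.smul (foldA o D a f).2 c)
      (o.smul a (foldA o D a f).1), (foldA o D a f).2 * D) := rfl
    rw [e]
    constructor
    · push_cast
      rw [h1, List.length_cons]
      ring
    · rw [h.add, h.smul, h.smul, h1, h2, List.length_cons, evA]
      field_simp
      ring

theorem gAt_sound {D : ℤ} (hD : D ≠ 0) (c : ℤ) (rf : List α) (a : ℤ) :
    val (gAt o D c rf a) = (D : ℝ) ^ rf.length *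
      (c * ((a : ℝ) / D) ^ rf.length - evA val ((a : ℝ) / D) rf.reverse) := by
  have hD' : (D : ℝ) ≠ 0 := by exact_mod_cast hD
  rw [gAt, h.add, h.cst, h.smul, (foldA_sound h hD a rf.reverse).2, List.length_reverse,
    div_pow, mul_sub]
  push_cast
  field_simp
  ring

omit h in
theorem evA_continuous : ∀ l : List α, Continuous fun θ : ℝ => evA val θ l
  | [] => continuous_const
  | _ :: l => continuous_const.add (continuous_id.mul (evA_continuous l))

theorem rootT_sound {D lo hi c : ℤ} {rf : List α} (ht : rootT o D lo hi c rf = true) :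
    ∃ θ : ℝ, 0 < D ∧ (lo : ℝ) ≤ D * θ ∧ D * θ ≤ hi ∧ c ≠ 0 ∧
      c * θ ^ rf.length = evA val θ rf.reverse := by
  simp only [rootT, Bool.and_eq_true, Bool.or_eq_true, decide_eq_true_eq] at ht
  obtain ⟨⟨⟨hD, hle⟩, hc⟩, hs⟩ := ht
  have hD' : (0 : ℝ) < D := by exact_mod_cast hD
  have hDn : (0 : ℝ) < (D : ℝ) ^ rf.length := by positivity
  set g : ℝ → ℝ := fun θ => c * θ ^ rf.length - evA val θ rf.reverse with hg
  have hgc : Continuous g :=
    (continuous_const.mul (continuous_id.pow _)).sub (evA_continuous rf.reverse)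
  have hle' : (lo : ℝ) / D ≤ hi / D := by
    apply div_le_div_of_nonneg_right _ hD'.le
    exact_mod_cast hle
  have np : ∀ a : ℤ, npT o (gAt o D c rf a) = true → g (a / D) ≤ 0 := by
    intro a ha
    have h1 := npT_sound h ha
    rw [gAt_sound h hD.ne'] at h1
    by_contra hcon
    push Not at hcon
    have := mul_pos hDn hcon
    linarith
  have nn : ∀ a : ℤ, nnT o (gAt o D c rf a) = true → 0 ≤ g (a / D) := by
    intro a ha
    have h1 := nnT_sound h ha
    rw [gAt_sound h hD.ne'] at h1
    by_contra hcon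
    push Not at hcon
    have := mul_neg_of_pos_of_neg hDn hcon
    linarith
  have key : ∃ θ ∈ Set.Icc ((lo : ℝ) / D) (hi / D), g θ = 0 := by
    rcases hs with ⟨h1, h2⟩ | ⟨h1, h2⟩
    · obtain ⟨θ, hθ, h0⟩ := intermediate_value_Icc hle' hgc.continuousOn ⟨np lo h1, nn hi h2⟩
      exact ⟨θ, hθ, h0⟩
    · obtain ⟨θ, hθ, h0⟩ := intermediate_value_Icc' hle' hgc.continuousOn ⟨np hi h2, nn lo h1⟩
      exact ⟨θ, hθ, h0⟩
  obtain ⟨θ, ⟨h1, h2⟩, h0⟩ := key
  refine ⟨θ, hD, ?_, ?_, hc, ?_⟩
  · rw [div_le_iff₀ hD'] at h1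
    linarith
  · rw [le_div_iff₀ hD'] at h2
    linarith
  · have : c * θ ^ rf.length - evA val θ rf.reverse = 0 := h0
    linarith

end Root

/-- ONE STEP OF THE TOWER -/
theorem ok_adj {α : Type} {o : Ops α} (h : ∃ val, Ok o val) {D lo hi c : ℤ} {rf : List α}
    (ht : rootT o D lo hi c rf = true) : ∃ val, Ok (adj o D lo hi c rf) val := by
  obtain ⟨val, hv⟩ := h
  obtain ⟨θ, hD, h1, h2, hc, hf⟩ := rootT_sound hv ht
  exact ⟨_, adj_ok hv hD h1 h2 hc hf⟩

/-! ### letters -/

/-- an affine map: common denominator and `3 x 4` matrix of coefficients -/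
structure Lt (α : Type) where
  den : ℤ
  m : List α

section Letters

variable {α : Type} (o : Ops α)

/-- the coefficient -/
def Lt.e (L : Lt α) (r c : ℕ) : α := L.m.getD (4 * r + c) (o.cst 0)

/-- equality test -/
def eqT (x y : α) : Bool := o.zt (o.add x (o.smul (-1) y))

/-- the entry test of a product, `r` the row and `c` the column -/
def cmpE (L1 L2 L3 : Lt α) (r c : ℕ) : Bool :=
  let s := o.add (o.mul (L1.e o r 0) (L2.e o 0 c)) (o.add (o.mul (L1.e o r 1) (L2.e o 1 c))
    (o.mul (L1.e o r 2) (L2.e o 2 c)))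
  let s' := if c = 3 then o.add s (o.smul L2.den (L1.e o r 3)) else s
  eqT o (o.smul L3.den s') (o.smul (L1.den * L2.den) (L3.e o r c))

/-- the test for `L1 L2 = L3` -/
def cmp (L1 L2 L3 : Lt α) : Bool :=
  decide (L1.den ≠ 0) && decide (L2.den ≠ 0) && decide (L3.den ≠ 0) &&
    [0, 1, 2].all (fun r => [0, 1, 2, 3].all (fun c => cmpE o L1 L2 L3 r c))

/-- the test for the identity -/
def idT (L : Lt α) : Bool :=
  decide (L.den ≠ 0) && [0, 1, 2].all (fun r => [0, 1, 2, 3].all (fun c =>
    eqT o (L.e o r c) (if r = c then o.cst L.den else o.cst 0)))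

/-- the test for commutation with the reflection -/
def cmT (L : Lt α) : Bool :=
  o.zt (L.e o 0 2) && o.zt (L.e o 1 2) && o.zt (L.e o 2 0) && o.zt (L.e o 2 1) &&
    o.zt (L.e o 2 3)

/-- the test for one interval, `s` the common scale of the boxes -/
def inT (s den : ℤ) (I : ℤ × ℤ) (x : α) : Bool :=
  let r := o.iv x
  decide (I.1 * (den * r.2.2) ≤ s * r.1) && decide (s * r.2.1 ≤ I.2 * (den * r.2.2))

/-- the test for a row -/
def rowT (s : ℤ) (L : Lt α) (r : ℕ) (R : Row) : Bool :=
  inT o s L.den R.a (L.e o r 0) && inT o s L.den R.b (L.e o r 1) &&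
    inT o s L.den R.c (L.e o r 2) && inT o s L.den R.t (L.e o r 3)

/-- the test for a box -/
def boxT (s : ℤ) (L : Lt α) (B : ABox) : Bool :=
  decide (0 < L.den) && rowT o s L 0 B.r0 && rowT o s L 1 B.r1 && rowT o s L 2 B.r2

/-- the letter `i` -/
def getL (Ls : List (Lt α)) (i : ℕ) : Lt α := Ls.getD i ⟨1, []⟩

/-- the test for the whole data; `inv` is the table of inverses -/
def dataT (Ls : List (Lt α)) (inv : List ℕ) : Bool :=
  idT o (getL Ls 0) && (List.range Ls.length).all (fun i =>
    cmp o (getL Ls i) (getL Ls (inv.getD i 0)) (getL Ls 0) &&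
      cmp o (getL Ls (inv.getD i 0)) (getL Ls i) (getL Ls 0))

/-- the test for the relations -/
def relT (Ls : List (Lt α)) (rels : List (ℕ × ℕ × ℕ)) : Bool :=
  rels.all (fun r => decide (r.1 < Ls.length) && decide (r.2.1 < Ls.length) &&
    decide (r.2.2 < Ls.length) && cmp o (getL Ls r.1) (getL Ls r.2.1) (getL Ls r.2.2))

/-- the test for the boundary letters -/
def bdT (Ls : List (Lt α)) (bds : List ℕ) : Bool :=
  bds.all (fun i => decide (i < Ls.length) && cmT o (getL Ls i))

/-- the test for the boxes -/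
def boxesT (s : ℤ) (Ls : List (Lt α)) (box : ℕ → ABox) : Bool :=
  decide (0 ≤ s) && (List.range Ls.length).all (fun i => boxT o s (getL Ls i) (box i))

/-- the real coefficient -/
noncomputable def Lt.co (val : α → ℝ) (L : Lt α) (r c : ℕ) : ℝ := val (L.e o r c) / L.den

/-- the linear part -/
noncomputable def Lt.lin (val : α → ℝ) (L : Lt α) : E3 →ₗ[ℝ] E3 where
  toFun x := fun r => L.co o val r 0 * x 0 + L.co o val r 1 * x 1 + L.co o val r 2 * x 2
  map_add' x y := by
    funext r
    simp only [Pi.add_apply]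
    ring
  map_smul' c x := by
    funext r
    simp only [Pi.smul_apply, smul_eq_mul, RingHom.id_apply]
    ring

/-- the affine map -/
noncomputable def Lt.map (val : α → ℝ) (L : Lt α) : E3 →ᵃ[ℝ] E3 where
  toFun x := fun r => L.co o val r 0 * x 0 + L.co o val r 1 * x 1 + L.co o val r 2 * x 2 +
    L.co o val r 3
  linear := L.lin o val
  map_vadd' x v := by
    funext r
    simp only [vadd_eq_add, Pi.add_apply, Lt.lin, LinearMap.coe_mk, AddHom.coe_mk]
    ring

theorem Lt.map_apply (val : α → ℝ) (L : Lt α) (x : E3) (r : Fin 3) :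
    L.map o val x r = L.co o val r 0 * x 0 + L.co o val r 1 * x 1 + L.co o val r 2 * x 2 +
      L.co o val r 3 := rfl

variable {o} {val : α → ℝ} (h : Ok o val)

include h

theorem eqT_sound {x y : α} (ht : eqT o x y = true) : val x = val y := by
  have h1 := h.zt _ ht
  rw [h.add, h.smul] at h1
  push_cast at h1
  linarith

theorem cmp_sound {L1 L2 L3 : Lt α} (ht : cmp o L1 L2 L3 = true) (x : E3) :
    L1.map o val (L2.map o val x) = L3.map o val x := by
  simp only [cmp, Bool.and_eq_true, decide_eq_true_eq, List.all_cons, List.all_nil,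
    Bool.and_true] at ht
  obtain ⟨⟨⟨d1, d2⟩, d3⟩, h0, h1, h2⟩ := ht
  have D1 : (L1.den : ℝ) ≠ 0 := by exact_mod_cast d1
  have D2 : (L2.den : ℝ) ≠ 0 := by exact_mod_cast d2
  have D3 : (L3.den : ℝ) ≠ 0 := by exact_mod_cast d3
  have lin : ∀ r c : ℕ, c ≠ 3 → cmpE o L1 L2 L3 r c = true →
      L1.co o val r 0 * L2.co o val 0 c + L1.co o val r 1 * L2.co o val 1 c +
        L1.co o val r 2 * L2.co o val 2 c = L3.co o val r c := by
    intro r c hc hE
    simp only [cmpE, if_neg hc] at hE
    have h3 := eqT_sound h hE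
    simp only [h.smul, h.add, h.mul] at h3
    push_cast at h3
    simp only [Lt.co]
    field_simp
    linear_combination h3
  have tr : ∀ r : ℕ, cmpE o L1 L2 L3 r 3 = true →
      L1.co o val r 0 * L2.co o val 0 3 + L1.co o val r 1 * L2.co o val 1 3 +
        L1.co o val r 2 * L2.co o val 2 3 + L1.co o val r 3 = L3.co o val r 3 := by
    intro r hE
    simp only [cmpE, if_true] at hE
    have h3 := eqT_sound h hE
    simp only [h.smul, h.add, h.mul] at h3
    push_cast at h3
    simp only [Lt.co]
    field_simp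
    linear_combination h3
  funext r
  have key : ∀ r : ℕ, cmpE o L1 L2 L3 r 0 = true → cmpE o L1 L2 L3 r 1 = true →
      cmpE o L1 L2 L3 r 2 = true → cmpE o L1 L2 L3 r 3 = true →
      L1.co o val r 0 * (L2.co o val 0 0 * x 0 + L2.co o val 0 1 * x 1 +
        L2.co o val 0 2 * x 2 + L2.co o val 0 3) +
      L1.co o val r 1 * (L2.co o val 1 0 * x 0 + L2.co o val 1 1 * x 1 +
        L2.co o val 1 2 * x 2 + L2.co o val 1 3) +
      L1.co o val r 2 * (L2.co o val 2 0 * x 0 + L2.co o val 2 1 * x 1 +
        L2.co o val 2 2 * x 2 + L2.co o val 2 3) +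
      L1.co o val r 3 = L3.co o val r 0 * x 0 + L3.co o val r 1 * x 1 +
        L3.co o val r 2 * x 2 + L3.co o val r 3 := by
    intro r a0 a1 a2 a3
    have b0 := lin r 0 (by norm_num) a0
    have b1 := lin r 1 (by norm_num) a1
    have b2 := lin r 2 (by norm_num) a2
    have b3 := tr r a3
    linear_combination x 0 * b0 + x 1 * b1 + x 2 * b2 + b3
  simp only [Lt.map_apply]
  fin_cases r
  · exact key 0 h0.1 h0.2.1 h0.2.2.1 h0.2.2.2
  · exact key 1 h1.1 h1.2.1 h1.2.2.1 h1.2.2.2
  · exact key 2 h2.1 h2.2.1 h2.2.2.1 h2.2.2.2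

theorem idT_sound {L : Lt α} (ht : idT o L = true) (x : E3) : L.map o val x = x := by
  simp only [idT, Bool.and_eq_true, decide_eq_true_eq, List.all_cons, List.all_nil,
    Bool.and_true] at ht
  obtain ⟨d, h0, h1, h2⟩ := ht
  have D : (L.den : ℝ) ≠ 0 := by exact_mod_cast d
  have e : ∀ r c : ℕ, eqT o (L.e o r c) (if r = c then o.cst L.den else o.cst 0) = true →
      L.co o val r c = if r = c then 1 else 0 := by
    intro r c hE
    have h3 := eqT_sound h hE
    rw [Lt.co, h3]
    split_ifs
    · rw [h.cst]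
      exact div_self D
    · rw [h.cst]
      simp
  funext r
  rw [Lt.map_apply]
  fin_cases r
  · simp only [e 0 0 h0.1, e 0 1 h0.2.1, e 0 2 h0.2.2.1, e 0 3 h0.2.2.2]
    simp
  · simp only [e 1 0 h1.1, e 1 1 h1.2.1, e 1 2 h1.2.2.1, e 1 3 h1.2.2.2]
    simp
  · simp only [e 2 0 h2.1, e 2 1 h2.2.1, e 2 2 h2.2.2.1, e 2 3 h2.2.2.2]
    simp

theorem cmT_sound {L : Lt α} (ht : cmT o L = true) (x : E3) :
    L.map o val (sigmaL x) = sigmaL (L.map o val x) := by
  simp only [cmT, Bool.and_eq_true] at ht
  obtain ⟨⟨⟨⟨h1, h2⟩, h3⟩, h4⟩, h5⟩ := ht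
  have e : ∀ r c : ℕ, o.zt (L.e o r c) = true → L.co o val r c = 0 := by
    intro r c hE
    rw [Lt.co, h.zt _ hE, zero_div]
  funext r
  rw [sigmaL_apply, sigmaL_apply]
  fin_cases r
  · simp [Lt.map_apply, e 0 2 h1]
  · simp [Lt.map_apply, e 1 2 h2]
  · simp [Lt.map_apply, e 2 0 h3, e 2 1 h4, e 2 3 h5]

theorem inT_sound {s den : ℤ} {I : ℤ × ℤ} {x : α} (hs : 0 ≤ s) (hden : 0 < den)
    (ht : inT o s den I x = true) : InI I (s * (val x / den)) := by
  simp only [inT, Bool.and_eq_true, decide_eq_true_eq] at ht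
  obtain ⟨h3, h4⟩ := ht
  obtain ⟨h5, h6, h7⟩ := h.iv x
  have hd : (0 : ℝ) < den := by exact_mod_cast hden
  have hr : (0 : ℝ) < (o.iv x).2.2 := by exact_mod_cast h5
  have hs' : (0 : ℝ) ≤ s := by exact_mod_cast hs
  have h3' : (I.1 : ℝ) * (den * (o.iv x).2.2) ≤ s * (o.iv x).1 := by exact_mod_cast h3
  have h4' : (s : ℝ) * (o.iv x).2.1 ≤ I.2 * (den * (o.iv x).2.2) := by exact_mod_cast h4
  have hp : (0 : ℝ) < den * (o.iv x).2.2 := mul_pos hd hr
  have e : (s : ℝ) * (val x / den) * (den * (o.iv x).2.2) = s * ((o.iv x).2.2 * val x) := by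
    field_simp
  constructor
  · refine le_of_mul_le_mul_right ?_ hp
    rw [e]
    exact h3'.trans (mul_le_mul_of_nonneg_left h6 hs')
  · refine le_of_mul_le_mul_right ?_ hp
    rw [e]
    exact (mul_le_mul_of_nonneg_left h7 hs').trans h4'

theorem rowT_sound {s : ℤ} (hs : 0 ≤ s) {L : Lt α} (hden : 0 < L.den)
    (r : Fin 3) {R : Row} (ht : rowT o s L r R = true) :
    R.Mem s (fun x => L.map o val x r) := by
  simp only [rowT, Bool.and_eq_true] at ht
  obtain ⟨⟨⟨h3, h4⟩, h5⟩, h6⟩ := ht
  exact ⟨L.co o val r 0, L.co o val r 1, L.co o val r 2, L.co o val r 3,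
    inT_sound h hs hden h3, inT_sound h hs hden h4,
    inT_sound h hs hden h5, inT_sound h hs hden h6, fun x => rfl⟩

omit h in
open Classical in
/-- the affine equivalence -/
noncomputable def toEquiv (o : Ops α) (val : α → ℝ) (L : Lt α) : Aff3 :=
  if h : Function.Bijective (L.map o val) then AffineEquiv.ofBijective h else 1

omit h in
theorem toEquiv_apply {L : Lt α} (hb : Function.Bijective (L.map o val)) (x : E3) :
    toEquiv o val L x = L.map o val x := by
  rw [toEquiv, dif_pos hb]
  rfl

end Letters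

/-- THE REAL POINT -/
theorem realPoint {α : Type} {o : Ops α} (hok : ∃ val, Ok o val) {s : ℤ} {Ls : List (Lt α)}
    {inv : List ℕ} {rels : List (ℕ × ℕ × ℕ)} {bds : List ℕ} {box : ℕ → ABox}
    (h0 : 0 < Ls.length) (hdata : dataT o Ls inv = true)
    (hrel : relT o Ls rels = true) (hbd : bdT o Ls bds = true)
    (hbox : boxesT o s Ls box = true) :
    Nonempty (RealPoint Ls.length rels bds box s) := by
  obtain ⟨val, h⟩ := hok
  simp only [dataT, Bool.and_eq_true, List.all_eq_true, List.mem_range] at hdata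
  obtain ⟨hid, hinv⟩ := hdata
  have bij : ∀ i < Ls.length, Function.Bijective ((getL Ls i).map o val) := by
    intro i hi
    obtain ⟨a1, a2⟩ := hinv i hi
    refine Function.bijective_iff_has_inverse.2 ⟨(getL Ls (inv.getD i 0)).map o val, ?_, ?_⟩
    · intro x
      rw [cmp_sound h a2, idT_sound h hid]
    · intro x
      rw [cmp_sound h a1, idT_sound h hid]
  refine ⟨⟨fun i => toEquiv o val (getL Ls i), ?_, ?_, ?_, ?_⟩⟩
  · ext x r
    rw [toEquiv_apply (bij 0 h0), idT_sound h hid]
    rfl
  · intro r hr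
    simp only [relT, List.all_eq_true, Bool.and_eq_true, decide_eq_true_eq] at hrel
    obtain ⟨⟨⟨b1, b2⟩, b3⟩, b4⟩ := hrel r hr
    ext x c
    have e : (toEquiv o val (getL Ls r.1) * toEquiv o val (getL Ls r.2.1)) x =
        toEquiv o val (getL Ls r.1) (toEquiv o val (getL Ls r.2.1) x) := rfl
    rw [e, toEquiv_apply (bij _ b1), toEquiv_apply (bij _ b2), toEquiv_apply (bij _ b3),
      cmp_sound h b4]
  · intro i hi x
    simp only [bdT, List.all_eq_true, Bool.and_eq_true, decide_eq_true_eq] at hbd
    obtain ⟨b1, b2⟩ := hbd i hi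
    rw [toEquiv_apply (bij _ b1), toEquiv_apply (bij _ b1), cmT_sound h b2]
  · intro i hi
    simp only [boxesT, List.all_eq_true, Bool.and_eq_true, decide_eq_true_eq,
      List.mem_range] at hbox
    obtain ⟨hs, hb⟩ := hbox
    have hb' := hb i hi
    simp only [boxT, Bool.and_eq_true, decide_eq_true_eq] at hb'
    obtain ⟨⟨⟨c1, c2⟩, c3⟩, c4⟩ := hb'
    have e : ∀ r : Fin 3, (fun x => (toEquiv o val (getL Ls i)) x r) =
        fun x => (getL Ls i).map o val x r := by
      intro r
      funext x
      rw [toEquiv_apply (bij i hi)]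
    refine ⟨?_, ?_, ?_⟩
    · rw [e 0]
      exact rowT_sound h hs c1 0 c2
    · rw [e 1]
      exact rowT_sound h hs c1 1 c3
    · rw [e 2]
      exact rowT_sound h hs c1 2 c4

end Pool.Agent.Helper68.TW
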